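import Mathlib
import Pool.Agent.Helper69.BQ.St.S2
import Pool.Agent.Helper69.BQ.St.C2

/-!
# Project BQ, piece S5: the relations
-/

namespace Pool.Agent.Helper83.BQ

open Module NumberField Pool.Agent.Helper25.Biq Pool.Agent.Helper69.BQ Cert

/-! ### Bits of the masks -/

lemma testBit_block (n k j : ℕ) :
    (2 ^ (k + n) - 2 ^ k).testBit j = (decide (k ≤ j) && decide (j < k + n)) := by
  have h : 2 ^ (k + n) - 2 ^ k = (2 ^ n - 1) <<< k := by
    rw [Nat.shiftLeft_eq, Nat.sub_mul, one_mul, ← pow_add, add_comm n k]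
  rw [h, Nat.testBit_shiftLeft, Nat.testBit_two_pow_sub_one]
  by_cases hk : k ≤ j
  · simp only [ge_iff_le, hk, decide_true, Bool.true_and]
    congr 1
    apply propext
    omega
  · simp [hk]

lemma two_pow_block (n k : ℕ) : 2 ^ (k + n) - 2 ^ k = 2 ^ k * (2 ^ n - 1) := by
  rw [Nat.mul_sub, mul_one, pow_add]

/-- Sum of a number below `2 ^ k` and a block starting at `k`. -/
lemma testBit_add_block {x k : ℕ} (hx : x < 2 ^ k) (n j : ℕ) :
    (x + (2 ^ (k + n) - 2 ^ k)).testBit j =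
      (x.testBit j || (2 ^ (k + n) - 2 ^ k).testBit j) := by
  rw [two_pow_block, add_comm, Nat.two_pow_add_eq_or_of_lt hx, Nat.testBit_or, Bool.or_comm]

lemma testBit_two (j : ℕ) : (2 : ℕ).testBit (j + 2) = false := by
  rw [show (2 : ℕ) = 2 ^ 1 from rfl, Nat.testBit_two_pow]
  simp

section masks

variable (c : Cert)

lemma m12_lt : c.m12 + 2 < 2 ^ (2 + c.P12.length) := by
  unfold Cert.m12
  have : 2 ^ 2 ≤ 2 ^ (2 + c.P12.length) := Nat.pow_le_pow_right (by norm_num) (by omega)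
  omega

lemma testBit_d1m (j : ℕ) : c.d1m.testBit j = (c.m12.testBit j || c.m13.testBit j) := by
  unfold Cert.d1m Cert.m13
  apply testBit_add_block
  have := m12_lt c
  omega

lemma m13_le : c.m12 + 2 ≤ 2 ^ (2 + c.P12.length + c.P13.length) := by
  have := m12_lt c
  have h : 2 ^ (2 + c.P12.length) ≤ 2 ^ (2 + c.P12.length + c.P13.length) :=
    Nat.pow_le_pow_right (by norm_num) (by omega)
  omega

lemma testBit_add_two {x : ℕ} (hx : x % 4 = 0) (j : ℕ) :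
    (x + 2).testBit (j + 2) = x.testBit (j + 2) := by
  have h : x + 2 = 2 ^ 2 * (x / 4) + 2 := by omega
  have h' : x = 2 ^ 2 * (x / 4) := by omega
  rw [h, Nat.two_pow_add_eq_or_of_lt (by norm_num), Nat.testBit_or, testBit_two, ← h',
    Bool.or_false]

lemma block_mod (n k : ℕ) : (2 ^ (2 + k + n) - 2 ^ (2 + k)) % 4 = 0 := by
  rw [two_pow_block, pow_add, mul_assoc]
  exact Nat.mul_mod_right _ _

lemma m12_mod : c.m12 % 4 = 0 := by
  have := block_mod c.P12.length 0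
  exact this

lemma m13_mod : c.m13 % 4 = 0 := block_mod c.P13.length c.P12.length

lemma m23_mod : c.m23 % 4 = 0 := by
  have := block_mod c.P23.length (c.P12.length + c.P13.length)
  rw [← add_assoc] at this
  exact this

lemma testBit_d2m (j : ℕ) :
    c.d2m.testBit (j + 2) = (c.m12.testBit (j + 2) || c.m23.testBit (j + 2)) := by
  have h : c.d2m = (c.m12 + c.m23) + 2 := rfl
  rw [h, testBit_add_two (by have := m12_mod c; have := m23_mod c; omega)]
  unfold Cert.m23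
  apply testBit_add_block
  have := m12_lt c
  have h : 2 ^ (2 + c.P12.length) ≤ 2 ^ (2 + c.P12.length + c.P13.length) :=
    Nat.pow_le_pow_right (by norm_num) (by omega)
  omega

lemma testBit_d3m (j : ℕ) :
    c.d3m.testBit (j + 2) = (c.m13.testBit (j + 2) || c.m23.testBit (j + 2)) := by
  have h : c.d3m = (c.m13 + c.m23) + 2 := rfl
  rw [h, testBit_add_two (by have := m13_mod c; have := m23_mod c; omega)]
  unfold Cert.m23
  apply testBit_add_block
  unfold Cert.m13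
  have h1 : 0 < 2 ^ (2 + c.P12.length) := by positivity
  have h : 2 ^ (2 + c.P12.length) ≤ 2 ^ (2 + c.P12.length + c.P13.length) :=
    Nat.pow_le_pow_right (by norm_num) (by omega)
  omega

lemma d1m_mod : c.d1m % 2 = 0 := by
  have := m12_mod c; have := m13_mod c
  unfold Cert.d1m; omega

lemma d2m_mod : c.d2m % 2 = 0 := by
  have := m12_mod c; have := m23_mod c
  unfold Cert.d2m; omega

lemma d3m_mod : c.d3m % 2 = 0 := by
  have := m13_mod c; have := m23_mod c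
  unfold Cert.d3m; omega

/-! ### The prime divisors of the three numbers -/

lemma not_dvd_prod {c : Cert} (h : c.ok1 = true) {p : ℕ} (hp : p.Prime) {l : List ℕ}
    (hl : ∀ q ∈ l, q ∈ c.ps) (hmem : p ∉ c.ps) : ¬ p ∣ l.prod := by
  intro hd
  obtain ⟨q, hq, hpq⟩ := (Prime.dvd_prod_iff hp.prime).1 hd
  have hqp : q.Prime := ((ok1_primes h).1 q (hl q hq)).1
  have : p = q := (Nat.prime_dvd_prime_iff_eq hp hqp).1 hpq
  exact hmem (this ▸ hl q hq)

lemma not_dvd_g {c : Cert} (h : c.ok1 = true) {p : ℕ} (hp : p.Prime) (hp2 : p ≠ 2)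
    (hmem : p ∉ c.ps) : ¬ (p : ℤ) ∣ c.g12 ∧ ¬ (p : ℤ) ∣ c.g13 ∧ ¬ (p : ℤ) ∣ c.g23 := by
  refine ⟨?_, ?_, ?_⟩
  · unfold Cert.g12
    rw [Int.natCast_dvd_natCast]
    exact not_dvd_prod h hp (fun q hq => by simp [Cert.ps, hq]) hmem
  · unfold Cert.g13
    rw [Int.natCast_dvd_natCast]
    exact not_dvd_prod h hp (fun q hq => by simp [Cert.ps, hq]) hmem
  · unfold Cert.g23
    rw [Int.natCast_dvd_natCast, hp.dvd_mul]
    rintro (h2 | h2)
    · exact hp2 ((Nat.prime_dvd_prime_iff_eq hp Nat.prime_two).1 h2)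
    · exact not_dvd_prod h hp (fun q hq => by simp [Cert.ps, hq]) hmem h2

lemma hd3 {c : Cert} (h : c.ok1 = true) {a b : ℤ}
    (ha : a = c.g12 ∨ a = c.g13 ∨ a = c.g23) (hb : b = c.g12 ∨ b = c.g13 ∨ b = c.g23) :
    ∀ p : ℕ, p.Prime → p ≠ 2 → p ∉ c.ps → ¬ (p : ℤ) ∣ a * b := by
  intro p hp hp2 hmem hdvd
  obtain ⟨h1, h2, h3⟩ := not_dvd_g h hp hp2 hmem
  have hpz : Prime (p : ℤ) := Nat.prime_iff_prime_int.1 hp
  rcases hpz.dvd_or_dvd hdvd with h4 | h4
  · rcases ha with rfl | rfl | rfl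
    · exact h1 h4
    · exact h2 h4
    · exact h3 h4
  · rcases hb with rfl | rfl | rfl
    · exact h1 h4
    · exact h2 h4
    · exact h3 h4

end masks

/-! ### Square classes -/

section classes

variable {K : Type} [Field K] [NumberField K]

lemma map_ne {a : ℚ} (h : a ≠ 0) : algebraMap ℚ K a ≠ 0 :=
  (map_ne_zero (algebraMap ℚ K)).2 h

lemma mem_cancel {x r s q : ℚ} (hx : sc (algebraMap ℚ K x) ∈ UCl K)
    (hs : sc (algebraMap ℚ K s) ∈ UCl K) (hs0 : s ≠ 0) (h : s = x * r * q ^ 2) :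
    sc (algebraMap ℚ K r) ∈ UCl K := by
  have hx0 : x ≠ 0 := by rintro rfl; apply hs0; rw [h]; ring
  have hr0 : r ≠ 0 := by rintro rfl; apply hs0; rw [h]; ring
  have hq0 : q ≠ 0 := by rintro rfl; apply hs0; rw [h]; ring
  have e : sc (algebraMap ℚ K s) = sc (algebraMap ℚ K x) + sc (algebraMap ℚ K r) := by
    rw [h, map_mul, map_mul, sc_mul (mul_ne_zero (map_ne hx0) (map_ne hr0))
      (map_ne (pow_ne_zero 2 hq0)), sc_mul (map_ne hx0) (map_ne hr0), map_pow, sc_sq, add_zero]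
  rw [e] at hs
  exact (Submodule.add_mem_iff_right _ hx).1 hs

lemma one_mem : sc (algebraMap ℚ K 1) ∈ UCl K := by
  rw [map_one, sc_one]; exact zero_mem _

lemma scneg_mem : sc (algebraMap ℚ K (-1)) ∈ UCl K := by
  rw [map_neg, map_one]; exact sc_neg_one_mem

lemma mul_mem {a b : ℚ} (ha0 : a ≠ 0) (hb0 : b ≠ 0) (ha : sc (algebraMap ℚ K a) ∈ UCl K)
    (hb : sc (algebraMap ℚ K b) ∈ UCl K) : sc (algebraMap ℚ K (a * b)) ∈ UCl K := by
  rw [map_mul, sc_mul (map_ne ha0) (map_ne hb0)]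
  exact add_mem ha hb

lemma sign_mem {ε : ℚ} (hε : ε = 1 ∨ ε = -1) : sc (algebraMap ℚ K ε) ∈ UCl K := by
  rcases hε with rfl | rfl
  · exact one_mem
  · exact scneg_mem

/-- The relation given by one quadratic subfield. -/
lemma rel_core {ps : List ℕ} (hps : ∀ p ∈ ps, p.Prime ∧ p ≠ 2 ∧ p < 2 ^ 30) (hnd : ps.Nodup)
    {chi : List ℕ} (hchi : chi = ps.map (chiM ps)) {d : ℤ} {dk rk : ℕ} (hd : d = valM ps dk)
    (hd0 : d ≠ 0)
    (hdk : dk % 2 = 0) (hd2 : ∀ i < ps.length, dk.testBit (i + 2) = true ↔ ((gt ps i : ℕ) : ℤ) ∣ d)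
    (hd3 : ∀ p : ℕ, p.Prime → p ≠ 2 → p ∉ ps → ¬ (p : ℤ) ∣ d)
    {F : ℕ × ℕ} {kk Kk : List ℕ} (hkk : kk = consK (ps.length + 2) chi dk)
    (hK : okK (ps.length + 2) kk dk rk F Kk = true)
    (hdU : sc (algebraMap ℚ K (d : ℚ)) ∈ UCl K)
    (hrel : ∃ s : ℚ, Adm d s ∧ sc (algebraMap ℚ K s) ∈ UCl K ∧
      ∀ q : ℚ, s ≠ q ^ 2 ∧ s ≠ -q ^ 2 ∧ s ≠ (d : ℤ) * q ^ 2 ∧ s ≠ -((d : ℤ) * q ^ 2)) :
    sc (algebraMap ℚ K (valM ps rk : ℤ)) ∈ UCl K := by
  obtain ⟨s, hA, hsU, hne⟩ := hrel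
  obtain ⟨hsupp, ε, hε, hdot⟩ := adm_consK hps hnd hchi hd hdk hd2 hd3 hA
  have hε0 : ε ≠ 0 := by rcases hε with rfl | rfl <;> norm_num
  have hεε : ε * ε = 1 := by rcases hε with rfl | rfl <;> norm_num
  have hs' : SuppOn ps (ε * s) := by
    refine ⟨mul_ne_zero hε0 hsupp.1, fun p hp hp2 hmem => ?_⟩
    rw [← hsupp.2 p hp hp2 hmem]
    rcases hε with rfl | rfl
    · rw [one_mul]
    · unfold vv
      rw [neg_one_mul, padicValRat.neg]
  obtain ⟨q, hq⟩ := okK_sound (fun p hp => ⟨(hps p hp).1, (hps p hp).2.1⟩) hnd hK hs' (by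
    rw [hkk]; exact hdot)
  rw [← hd] at hq
  have hs0 : s ≠ 0 := hsupp.1
  have hd0' : ((d : ℤ) : ℚ) ≠ 0 := by exact_mod_cast hd0
  have key : ∀ y : ℚ, ε * s = y → s = ε * y := by
    intro y hy
    rw [← hy, ← mul_assoc, hεε, one_mul]
  have hεU : sc (algebraMap ℚ K ε) ∈ UCl K := sign_mem hε
  have hεU' : sc (algebraMap ℚ K (-ε)) ∈ UCl K := by
    apply sign_mem
    rcases hε with rfl | rfl
    · exact Or.inr rfl
    · exact Or.inl (by norm_num)
  have hne4 := hne q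
  have e1 : ∀ y : ℚ, s = ε * y → s = y ∨ s = -y := by
    intro y hy
    rcases hε with rfl | rfl
    · left; rw [hy]; ring
    · right; rw [hy]; ring
  rcases hq with hq | hq | hq | hq | hq | hq | hq | hq
  · exfalso
    rcases e1 _ (key _ hq) with h | h
    · exact hne4.1 h
    · exact hne4.2.1 h
  · exfalso
    rcases e1 _ (key _ hq) with h | h
    · exact hne4.2.1 h
    · exact hne4.1 (by rw [h]; ring)
  · exfalso
    rcases e1 _ (key _ hq) with h | h
    · exact hne4.2.2.1 h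
    · exact hne4.2.2.2 h
  · exfalso
    rcases e1 _ (key _ hq) with h | h
    · exact hne4.2.2.2 h
    · exact hne4.2.2.1 (by rw [h]; ring)
  · exact mem_cancel (q := q) hεU hsU hs0 (by rw [key _ hq]; ring)
  · exact mem_cancel (q := q) hεU' hsU hs0 (by rw [key _ hq]; ring)
  · exact mem_cancel (q := q) (mul_mem hε0 hd0' hεU hdU) hsU hs0 (by rw [key _ hq]; ring)
  · exact mem_cancel (q := q) (mul_mem (neg_ne_zero.2 hε0) hd0' hεU' hdU) hsU hs0
      (by rw [key _ hq]; ring)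

end classes

end Pool.Agent.Helper83.BQ

namespace Pool.Agent.Helper83.BQ

open Module NumberField Pool.Agent.Helper25.Biq Pool.Agent.Helper69.BQ Cert

variable {K : Type} [Field K] [NumberField K] [IsGalois ℚ K]

lemma valM_one (ps : List ℕ) : valM ps 1 = -1 := by
  have h : prodM ps 0 = 1 := by
    induction ps with
    | nil => rfl
    | cons p ps ih => simp [prodM, ih]
  unfold valM
  simp [h]

omit [IsGalois ℚ K] in
lemma sq_mem {d : ℤ} {s : K} (h : s ^ 2 = ((d : ℤ) : K)) :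
    sc (algebraMap ℚ K ((d : ℤ) : ℚ)) ∈ UCl K := by
  rw [map_intCast, ← h, sc_sq]
  exact zero_mem _

lemma dvd_or {c : Cert} (h1 : c.ok1 = true) {a b : ℤ} {ma mb dk : ℕ} {i : ℕ}
    (hi : i < c.ps.length)
    (ha : ((gt c.ps i : ℕ) : ℤ) ∣ a ↔ ma.testBit (i + 2) = true)
    (hb : ((gt c.ps i : ℕ) : ℤ) ∣ b ↔ mb.testBit (i + 2) = true)
    (hk : dk.testBit (i + 2) = (ma.testBit (i + 2) || mb.testBit (i + 2))) :
    dk.testBit (i + 2) = true ↔ ((gt c.ps i : ℕ) : ℤ) ∣ a * b := by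
  have hp : (gt c.ps i).Prime := by
    have : gt c.ps i ∈ c.ps := by
      unfold gt
      rw [List.getD_eq_getElem _ _ hi]
      exact List.getElem_mem hi
    exact ((ok1_primes h1).1 _ this).1
  have hpz : Prime ((gt c.ps i : ℕ) : ℤ) := Nat.prime_iff_prime_int.1 hp
  rw [hk, Bool.or_eq_true, hpz.dvd_mul, ha, hb]

/-- S5. The relations. -/
theorem rel_mem {c : Cert} (D : Dat K c.g12 c.g13 c.g23) (h1 : c.ok1 = true) (h2 : c.ok2 = true)
    (h3 : c.ok3 = true) (h4 : c.ok4 = true) :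
    ∀ a ∈ [1, c.d1m, c.d2m, c.r1, c.r2, c.r3],
      sc (algebraMap ℚ K (valM c.ps a : ℤ)) ∈ UCl K := by
  obtain ⟨hps, hnd⟩ := ok1_primes h1
  have hAr : Arith c.g12 c.g13 c.g23 := (ok1_arith h1).1
  obtain ⟨v1, v2, v3⟩ := valM_d (c := c)
  have hchi : c.chi = c.ps.map (chiM c.ps) := by
    simpa only [Cert.ok2, decide_eq_true_eq] using h2
  simp only [Cert.ok3, Bool.and_eq_true, decide_eq_true_eq] at h3
  obtain ⟨⟨⟨hk1, hk2⟩, hk3⟩, -⟩ := h3
  simp only [Cert.ok4, Bool.and_eq_true] at h4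
  obtain ⟨⟨hK1, hK2⟩, hK3⟩ := h4
  have g1 := hAr.pos12
  have g2 := hAr.pos13
  have g3 := hAr.pos23
  intro a ha
  simp only [List.mem_cons, List.not_mem_nil, or_false] at ha
  have q1 : sc (algebraMap ℚ K ((c.g12 * c.g13 : ℤ) : ℚ)) ∈ UCl K := sq_mem D.q1
  have q2 : sc (algebraMap ℚ K ((c.g12 * c.g23 : ℤ) : ℚ)) ∈ UCl K := sq_mem D.q2
  have q2' : sc (algebraMap ℚ K ((c.g23 * c.g12 : ℤ) : ℚ)) ∈ UCl K := by rwa [mul_comm]
  have q3 : sc (algebraMap ℚ K ((c.g13 * c.g23 : ℤ) : ℚ)) ∈ UCl K := sq_mem D.q3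
  rcases ha with rfl | rfl | rfl | rfl | rfl | rfl
  · rw [valM_one, show ((-1 : ℤ) : ℚ) = -1 by norm_num]
    exact scneg_mem
  · rw [v1]; exact q1
  · rw [v2]; exact q2
  · refine rel_core (K := K) hps hnd hchi (d := c.g12 * c.g13) (dk := c.d1m) v1.symm (by positivity)
      (d1m_mod c) ?_ (hd3 h1 (Or.inl rfl) (Or.inr (Or.inl rfl))) hk1 hK1 q1
      (exists_rel D hAr)
    intro i hi
    have h := dvd_iff h1 hi
    exact dvd_or h1 hi h.1 h.2.1 (testBit_d1m c _)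
  · refine rel_core (K := K) hps hnd hchi (d := c.g23 * c.g12) (dk := c.d2m) (by rw [v2, mul_comm])
      (by positivity) (d2m_mod c) ?_ (hd3 h1 (Or.inr (Or.inr rfl)) (Or.inl rfl)) hk2 hK2
      q2' (exists_rel D.rot hAr.rot)
    intro i hi
    have h := dvd_iff h1 hi
    rw [mul_comm]
    exact dvd_or h1 hi h.1 h.2.2 (testBit_d2m c _)
  · refine rel_core (K := K) hps hnd hchi (d := c.g13 * c.g23) (dk := c.d3m) v3.symm
      (by positivity) (d3m_mod c) ?_ (hd3 h1 (Or.inr (Or.inl rfl)) (Or.inr (Or.inr rfl))) hk3 hK3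
      q3 (exists_rel D.rot.rot hAr.rot.rot)
    intro i hi
    have h := dvd_iff h1 hi
    exact dvd_or h1 hi h.2.1 h.2.2 (testBit_d3m c _)

end Pool.Agent.Helper83.BQ
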